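import Pool.Agent.Helper20.EP.Spec3

/-!
# EP: the minor case (MIN)
-/

set_option autoImplicit false

open Polynomial Filter Topology

namespace Pool.Agent.Helper46.EP.MIN

open Pool.Agent.Helper20.EP

lemma sum_sq_aux (m : ℕ) :
    ∑ k ∈ Finset.range (m + 1), (1 : ℝ) / ((k : ℝ) + 1) ^ 2 ≤ 2 - 1 / ((m : ℝ) + 1) := by
  induction m with
  | zero => norm_num
  | succ m ih =>
    rw [Finset.sum_range_succ]
    push_cast
    have h1 : (0 : ℝ) < (m : ℝ) + 1 := by positivity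
    have h2 : (0 : ℝ) < (m : ℝ) + 1 + 1 := by positivity
    have e1 : 1 / ((m : ℝ) + 1) - 1 / ((m : ℝ) + 1 + 1) =
        1 / (((m : ℝ) + 1) * ((m : ℝ) + 1 + 1)) := by
      field_simp
      ring
    have e2 : (1 : ℝ) / ((m : ℝ) + 1 + 1) ^ 2 ≤ 1 / (((m : ℝ) + 1) * ((m : ℝ) + 1 + 1)) := by
      apply one_div_le_one_div_of_le (by positivity)
      nlinarith
    linarith

lemma sum_sq (P : Finset ℕ) (hP : ∀ p ∈ P, 1 ≤ p) :
    ∑ p ∈ P, (1 : ℝ) / (p : ℝ) ^ 2 ≤ 2 := by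
  classical
  obtain ⟨m, hm⟩ : ∃ m : ℕ, ∀ p ∈ P, p < m + 1 := ⟨P.sup id, fun p hp => by
    have := Finset.le_sup (f := id) hp
    simp only [id] at this
    omega⟩
  have h1 : ∑ p ∈ P, (1 : ℝ) / (p : ℝ) ^ 2 ≤
      ∑ k ∈ Finset.range (m + 1), (1 : ℝ) / ((k : ℝ) + 1) ^ 2 := by
    have hinj : ∑ p ∈ P, (1 : ℝ) / (p : ℝ) ^ 2 =
        ∑ k ∈ P.image (fun p : ℕ => p - 1), (1 : ℝ) / ((k : ℝ) + 1) ^ 2 := by
      rw [Finset.sum_image]
      · apply Finset.sum_congr rfl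
        intro p hp
        have := hP p hp
        congr 2
        rw [Nat.cast_sub this]
        push_cast
        ring
      · intro a ha b hb hab
        have h1 := hP a ha
        have h2 := hP b hb
        simp only at hab
        omega
    rw [hinj]
    apply Finset.sum_le_sum_of_subset_of_nonneg
    · intro k hk
      rw [Finset.mem_image] at hk
      obtain ⟨p, hp, rfl⟩ := hk
      have := hm p hp
      rw [Finset.mem_range]
      omega
    · intros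
      positivity
  have h2 := sum_sq_aux m
  have h3 : (0 : ℝ) ≤ 1 / ((m : ℝ) + 1) := by positivity
  linarith

lemma va0_bounds (y : ℝ) : mu0 y - 2 ≤ va0 y ∧ va0 y ≤ mu0 y := by
  have h : va0 y = mu0 y - ∑ p ∈ primesLE y, (1 : ℝ) / (p : ℝ) ^ 2 := by
    unfold va0 mu0
    rw [← Finset.sum_sub_distrib]
    apply Finset.sum_congr rfl
    intro p hp
    ring
  have h1 := sum_sq (primesLE y) (fun p hp => by
    unfold primesLE at hp
    rw [Finset.mem_filter] at hp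
    exact hp.2.one_lt.le)
  have h2 : 0 ≤ ∑ p ∈ primesLE y, (1 : ℝ) / (p : ℝ) ^ 2 := Finset.sum_nonneg fun p _ => by
    positivity
  constructor <;> linarith

/-- `ll N` tends to infinity. -/
lemma ll_large (B : ℝ) : ∃ N₀ : ℕ, 1 ≤ N₀ ∧ ∀ N : ℕ, N₀ ≤ N → B ≤ ll N := by
  have h : Tendsto (fun N : ℕ => ll (N : ℝ)) atTop atTop :=
    (Real.tendsto_log_atTop.comp Real.tendsto_log_atTop).comp tendsto_natCast_atTop_atTop
  obtain ⟨N₀, hN₀⟩ := (tendsto_atTop.1 h B).exists_forall_of_atTop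
  exact ⟨max 1 N₀, le_max_left _ _, fun N hN => hN₀ N (le_trans (le_max_right _ _) hN)⟩

/-- The comparison of `x` and `z`. -/
lemma compare {ε κ CB CM L μ v lly om Z R : ℝ} (hε : 0 < ε) (hε1 : ε ≤ 1) (hκ : 0 < κ)
    (hCB : 0 < CB) (hCM : 0 ≤ CM) (hκ1 : κ * (1 + CB) ≤ ε / 2)
    (hL1 : 4 ≤ L) (hL2 : 2 * CM / ε ≤ Real.sqrt L) (hL3 : 2 * (CM + 2) / ε ≤ L)
    (hv0 : 0 < v) (hμ : |μ - lly| ≤ CM) (hv1 : μ - 2 ≤ v) (hv2 : v ≤ μ)
    (hdif : L - lly ≤ κ * Real.sqrt L) (hdif0 : lly ≤ L) (hR : R ≤ κ * Real.sqrt L)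
    (hom : |om - Z| ≤ CB * R) :
    |(om - L) / Real.sqrt L - (Z - μ) / Real.sqrt v| ≤ ε * (1 + |(Z - μ) / Real.sqrt v|) := by
  have hL0 : 0 < L := by linarith
  have hs0 : 0 < Real.sqrt L := Real.sqrt_pos.2 hL0
  have hsq : Real.sqrt L * Real.sqrt L = L := Real.mul_self_sqrt hL0.le
  have hs2 : 2 ≤ Real.sqrt L := by
    rw [show (2 : ℝ) = Real.sqrt 4 by
      rw [show (4 : ℝ) = 2 ^ 2 by norm_num, Real.sqrt_sq (by norm_num)]]
    exact Real.sqrt_le_sqrt hL1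
  have hw0 : 0 < Real.sqrt v := Real.sqrt_pos.2 hv0
  have hwq : Real.sqrt v * Real.sqrt v = v := Real.mul_self_sqrt hv0.le
  set s := Real.sqrt L with hs
  set w := Real.sqrt v with hw
  set z := (Z - μ) / w with hz
  have hZ : Z = μ + z * w := by
    rw [hz]
    field_simp
    ring
  have hrw : (om - L) / s - z = z * (w / s - 1) + ((μ - L) + (om - Z)) / s := by
    have : om - L = (om - Z) + (μ - L) + z * w := by rw [hZ]; ring
    rw [this]
    field_simp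
    ring
  rw [hrw]
  have hCBR : CB * R ≤ CB * (κ * s) := mul_le_mul_of_nonneg_left hR hCB.le
  have hμL : |μ - L| ≤ CM + κ * s := by
    rw [abs_le] at hμ ⊢
    constructor <;> nlinarith [hμ.1, hμ.2]
  have h2 : |((μ - L) + (om - Z)) / s| ≤ ε := by
    rw [abs_div, abs_of_pos hs0, div_le_iff₀ hs0]
    have h3 : |(μ - L) + (om - Z)| ≤ |μ - L| + |om - Z| := abs_add_le _ _
    have h4 : 2 * CM ≤ s * ε := by
      rwa [div_le_iff₀ hε] at hL2
    nlinarith
  have hvL : |v - L| ≤ CM + 2 + κ * s := by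
    rw [abs_le] at hμL ⊢
    constructor <;> linarith [hμL.1, hμL.2]
  have h1 : |w / s - 1| ≤ ε := by
    have e1 : w / s - 1 = (v - L) / (s * (w + s)) := by
      rw [← hwq, ← hsq]
      field_simp
      ring
    rw [e1, abs_div, abs_of_pos (by positivity : 0 < s * (w + s)), div_le_iff₀ (by positivity)]
    have h5 : L ≤ s * (w + s) := by nlinarith
    have h6 : 2 * (CM + 2) ≤ L * ε := by
      rwa [div_le_iff₀ hε] at hL3
    have h7 : κ ≤ ε / 2 := by nlinarith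
    have h8 : κ * s ≤ ε / 2 * L := by nlinarith
    have h9 : ε * L ≤ ε * (s * (w + s)) := mul_le_mul_of_nonneg_left h5 hε.le
    linarith
  calc |z * (w / s - 1) + ((μ - L) + (om - Z)) / s|
      ≤ |z * (w / s - 1)| + |((μ - L) + (om - Z)) / s| := abs_add_le _ _
    _ ≤ |z| * ε + ε := by
        rw [abs_mul]
        exact add_le_add (mul_le_mul_of_nonneg_left h1 (abs_nonneg _)) h2
    _ = ε * (1 + |z|) := by ring

theorem main (hMINC : S_MINC) (hBIGP : S_BIGP) (hZERO : S_ZERO) (hMERT : S_MERT)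
    (hCOMB : S_COMB) : S_MIN := by
  classical
  intro f hf t ε hε
  obtain ⟨CB, NB, hCB, hB⟩ := hBIGP f hf
  obtain ⟨CZ, hZ⟩ := hZERO f hf
  obtain ⟨CM', hM'⟩ := hMERT
  set CM : ℝ := max CM' 0 with hCMdef
  have hCM : 0 ≤ CM := le_max_right _ _
  have hM : ∀ x : ℝ, 2 ≤ x → |∑ p ∈ primesLE x, (1 : ℝ) / p - ll x| ≤ CM :=
    fun x hx => (hM' x hx).trans (le_max_left _ _)
  have hden : (0 : ℝ) < 5 + 3 * |t| := by positivity
  set ε₁ : ℝ := min 1 (ε / (5 + 3 * |t|)) with hε₁def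
  have hε₁ : 0 < ε₁ := lt_min one_pos (div_pos hε hden)
  have hε₁1 : ε₁ ≤ 1 := min_le_left _ _
  have hε₁2 : (5 + 3 * |t|) * ε₁ ≤ ε := by
    have : ε₁ ≤ ε / (5 + 3 * |t|) := min_le_right _ _
    rw [le_div_iff₀ hden] at this
    linarith
  obtain ⟨K, M₁, σ₀, hMC⟩ := hMINC f.natDegree hf t ε₁ hε₁
  set κ : ℝ := ε₁ / (2 * (CB + 1)) with hκdef
  have hκ : 0 < κ := by positivity
  have hκ1 : κ * (1 + CB) ≤ ε₁ / 2 := by
    rw [hκdef]
    apply le_of_eq
    field_simp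
    ring
  have hκ2 : κ ≤ 1 := by nlinarith
  obtain ⟨N1, hN1, hN1'⟩ := ll_large (max (max 4 ((2 * CM / ε₁) ^ 2))
    (max (2 * (CM + 2) / ε₁) (2 * σ₀ ^ 2 + 2 * CM + 6)))
  obtain ⟨N2, hN2⟩ := exists_nat_ge (CZ / ε₁)
  refine ⟨K, κ, M₁, max NB (max N1 N2), hκ, ?_⟩
  intro N q F T M y hN hD hM1 hyM hG
  have hNB : NB ≤ N := le_trans (le_max_left _ _) hN
  have hNN1 : N1 ≤ N := le_trans (le_trans (le_max_left _ _) (le_max_right _ _)) hN
  have hNN2 : N2 ≤ N := le_trans (le_trans (le_max_right _ _) (le_max_right _ _)) hN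
  have hN1N : 1 ≤ N := hN1.trans hNN1
  have hNpos : (0 : ℝ) < N := by exact_mod_cast hN1N
  have hLL := hN1' N hNN1
  set L := ll N with hLdef
  have hL1 : 4 ≤ L := le_trans (le_trans (le_max_left _ _) (le_max_left _ _)) hLL
  have hL2' : (2 * CM / ε₁) ^ 2 ≤ L :=
    le_trans (le_trans (le_max_right _ _) (le_max_left _ _)) hLL
  have hL3 : 2 * (CM + 2) / ε₁ ≤ L :=
    le_trans (le_trans (le_max_left _ _) (le_max_right _ _)) hLL
  have hL4 : 2 * σ₀ ^ 2 + 2 * CM + 6 ≤ L :=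
    le_trans (le_trans (le_max_right _ _) (le_max_right _ _)) hLL
  have hL2 : 2 * CM / ε₁ ≤ Real.sqrt L := Real.le_sqrt_of_sq_le hL2'
  have hL0 : 0 < L := by linarith
  have hs0 : 0 < Real.sqrt L := Real.sqrt_pos.2 hL0
  have hsq : Real.sqrt L * Real.sqrt L = L := Real.mul_self_sqrt hL0.le
  have hs2 : 2 ≤ Real.sqrt L := by
    rw [show (2 : ℝ) = Real.sqrt 4 by
      rw [show (4 : ℝ) = 2 ^ 2 by norm_num, Real.sqrt_sq (by norm_num)]]
    exact Real.sqrt_le_sqrt hL1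
  have hy1 : 1 ≤ y := by linarith [hG.two]
  have hmu := hM y hG.two
  have hmu' : |mu0 y - ll y| ≤ CM := hmu
  obtain ⟨hv1, hv2⟩ := va0_bounds y
  have hlog2 : 0 < Real.log y := Real.log_pos (by linarith [hG.two])
  have hlly : ll y ≤ L := by
    rw [hLdef]
    unfold ll
    exact Real.log_le_log hlog2 (Real.log_le_log (by linarith [hG.two]) hG.le)
  have hdif : L - ll y ≤ κ * Real.sqrt L := hG.dif
  have hvL : L / 2 - (CM + 2) ≤ va0 y := by
    have h1 := (abs_le.1 hmu').1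
    nlinarith
  have hσ : σ₀ ^ 2 ≤ va0 y := by nlinarith
  have hv0 : 0 < va0 y := by nlinarith [sq_nonneg σ₀]
  have hσ' : σ₀ ≤ Real.sqrt (va0 y) := Real.le_sqrt_of_sq_le hσ
  obtain ⟨hm1, hm2⟩ := hMC f N q F T M y rfl hN1N hD hM1 hy1 hyM hσ'
  have hfil : (Finset.Icc 1 N).filter (fun _ : ℕ => (0 : ℤ) = 0) = Finset.Icc 1 N := by
    rw [Finset.filter_true_of_mem]
    intros
    rfl
  have hcard : ((Finset.Icc 1 N).card : ℝ) = N := by simp
  have hcardC : ((Finset.Icc 1 N).card : ℂ) = N := by simp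
  have hcomb := hCOMB N (fun _ => (0 : ℤ)) {0} (fun n => xn f N n)
    (fun n => ((Zn f 1 y n : ℝ) - mu0 y) / Real.sqrt (va0 y)) t ε₁ hN1N hε₁ hε₁1 ?_ ?_ ?_ ?_
  · exact hcomb.trans hε₁2
  · intro s hs
    rw [Finset.mem_singleton] at hs
    subst hs
    rw [hfil, hcard, hcardC]
    have hNC : (N : ℂ) ≠ 0 := by
      exact_mod_cast hNpos.ne'
    have e1 : (∑ n ∈ Finset.Icc 1 N, Complex.exp (t * Complex.I *
          (((Zn f 1 y n : ℝ) - mu0 y) / Real.sqrt (va0 y) : ℝ))) -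
        (N : ℂ) * Complex.exp (-(t : ℂ) ^ 2 / 2) =
        (N : ℂ) * ((∑ n ∈ Finset.Icc 1 N, Complex.exp (t * Complex.I *
          (((Zn f 1 y n : ℝ) - mu0 y) / Real.sqrt (va0 y) : ℝ))) / (N : ℂ) -
            Complex.exp (-(t : ℂ) ^ 2 / 2)) := by
      field_simp
    rw [e1, norm_mul, Complex.norm_natCast, mul_comm ε₁]
    exact mul_le_mul_of_nonneg_left hm1 hNpos.le
  · intro s hs
    rw [Finset.mem_singleton] at hs
    subst hs
    rw [hfil, hcard]
    exact hm2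
  · have : cnt N (fun n => (fun _ : ℕ => (0 : ℤ)) n ∉ ({0} : Finset ℤ)) = 0 := by
      unfold cnt
      simp
    rw [this]
    positivity
  · have hsub : cnt N (fun n => ε₁ * (1 + |((Zn f 1 y n : ℝ) - mu0 y) / Real.sqrt (va0 y)|) <
        |xn f N n - ((Zn f 1 y n : ℝ) - mu0 y) / Real.sqrt (va0 y)|) ≤
          cnt N (fun n => ⌊f.eval (n : ℝ)⌋ = 0) := by
      unfold cnt
      norm_cast
      apply Finset.card_le_card
      intro n hn
      rw [Finset.mem_filter] at hn ⊢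
      refine ⟨hn.1, ?_⟩
      by_contra hne
      have hb := hB N hNB n hn.1 hne y hG.two
      have := compare (om := (omg ⌊f.eval (n : ℝ)⌋ : ℝ)) hε₁ hε₁1 hκ hCB hCM hκ1 hL1 hL2 hL3 hv0
        hmu' hv1 hv2 hdif hlly hG.quo hb
      exact absurd hn.2 (not_lt.2 this)
    refine hsub.trans ((hZ N).trans ?_)
    have h1 : CZ / ε₁ ≤ N := hN2.trans (by exact_mod_cast hNN2)
    rw [div_le_iff₀ hε₁] at h1
    linarith

end Pool.Agent.Helper46.EP.MIN
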